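import Pool.Agent.H85.LSP.SSD

/-!
Let `P` be as in the problem and `k ≥ 0`.

If `L^(k)(P)` contains an interval of positive length, then it contains `[v, 1/2]` for some
`0 < v < 1/2`: the answer to Q1 is no.

Moreover `L^(k)(P)` contains such an interval `[v, 1/2]` unless `k = 0`, `P` is monic and all roots
of `P` have the same modulus; and if `α ^ m = a` for all roots `α` of `P`, with an integer `m ≥ 1` and
an integer `a`, then `L^(0)(P)` contains no interval of positive length.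
-/

set_option autoImplicit false

open Polynomial

namespace Pool.Agent.Results.MP_cae670_nt.TerminalInterval

theorem result : ∀ P : ℤ[X], Pool.LSP.Adm P →
    (∀ k : ℕ, Pool.LSP.Itv P k → Pool.LSP.Ter P k) ∧
    (∀ k : ℕ, (k = 0 → ¬ (P.Monic ∧ ∃ ρ : ℝ, ∀ α ∈ Pool.LSP.Rt P, ‖α‖ = ρ)) → Pool.LSP.Ter P k) ∧
    ((∃ (m : ℕ) (a : ℤ), 1 ≤ m ∧ ∀ α ∈ Pool.LSP.Rt P, α ^ m = (a : ℂ)) → ¬ Pool.LSP.Itv P 0) :=
  fun P hP => ⟨Pool.LSP.main3 P hP, Pool.LSP.main2 P hP⟩

end Pool.Agent.Results.MP_cae670_nt.TerminalInterval
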